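import Pool.Agent.helper56.CT.SpecA

namespace CT
open Finset

/-- a sum over the three pairings, with an arbitrary first element -/
theorem D2_perm (F : Fin 4 → Fin 4 → Fin 4 → Fin 4 → ℤ)
    (h1 : ∀ a b c d, [a, b, c, d].Nodup → F a b c d = F b a c d)
    (h2 : ∀ a b c d, [a, b, c, d].Nodup → F a b c d = F a b d c)
    (h3 : ∀ a b c d, [a, b, c, d].Nodup → F a b c d = F c d a b)
    (i i1 i2 i3 : Fin 4) (h : [i, i1, i2, i3].Nodup) :
    F 0 1 2 3 + F 0 2 1 3 + F 0 3 1 2 = F i i1 i2 i3 + F i i2 i1 i3 + F i i3 i1 i2 := by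
  have a1 : F 1 0 2 3 = F 0 1 2 3 := h1 _ _ _ _ (by decide)
  have a2 : F 0 1 3 2 = F 0 1 2 3 := h2 _ _ _ _ (by decide)
  have a3 : F 1 0 3 2 = F 0 1 2 3 := (h1 _ _ _ _ (by decide)).trans a2
  have a4 : F 2 3 0 1 = F 0 1 2 3 := h3 _ _ _ _ (by decide)
  have a5 : F 2 3 1 0 = F 0 1 2 3 := (h2 _ _ _ _ (by decide)).trans a4
  have a6 : F 3 2 0 1 = F 0 1 2 3 := (h1 _ _ _ _ (by decide)).trans a4
  have a7 : F 3 2 1 0 = F 0 1 2 3 := (h1 _ _ _ _ (by decide)).trans a5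
  have b1 : F 2 0 1 3 = F 0 2 1 3 := h1 _ _ _ _ (by decide)
  have b2 : F 0 2 3 1 = F 0 2 1 3 := h2 _ _ _ _ (by decide)
  have b3 : F 2 0 3 1 = F 0 2 1 3 := (h1 _ _ _ _ (by decide)).trans b2
  have b4 : F 1 3 0 2 = F 0 2 1 3 := h3 _ _ _ _ (by decide)
  have b5 : F 1 3 2 0 = F 0 2 1 3 := (h2 _ _ _ _ (by decide)).trans b4
  have b6 : F 3 1 0 2 = F 0 2 1 3 := (h1 _ _ _ _ (by decide)).trans b4
  have b7 : F 3 1 2 0 = F 0 2 1 3 := (h1 _ _ _ _ (by decide)).trans b5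
  have c1 : F 3 0 1 2 = F 0 3 1 2 := h1 _ _ _ _ (by decide)
  have c2 : F 0 3 2 1 = F 0 3 1 2 := h2 _ _ _ _ (by decide)
  have c3 : F 3 0 2 1 = F 0 3 1 2 := (h1 _ _ _ _ (by decide)).trans c2
  have c4 : F 1 2 0 3 = F 0 3 1 2 := h3 _ _ _ _ (by decide)
  have c5 : F 1 2 3 0 = F 0 3 1 2 := (h2 _ _ _ _ (by decide)).trans c4
  have c6 : F 2 1 0 3 = F 0 3 1 2 := (h1 _ _ _ _ (by decide)).trans c4
  have c7 : F 2 1 3 0 = F 0 3 1 2 := (h1 _ _ _ _ (by decide)).trans c5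
  have key : ∀ i i1 i2 i3 : Fin 4, [i, i1, i2, i3].Nodup →
      F 0 1 2 3 + F 0 2 1 3 + F 0 3 1 2 = F i i1 i2 i3 + F i i2 i1 i3 + F i i3 i1 i2 := by
    clear h1 h2 h3 h i i1 i2 i3
    intro i i1 i2 i3 h
    fin_cases i <;> fin_cases i1 <;> first | (exfalso; revert h; simp; done) | skip
    all_goals fin_cases i2 <;> fin_cases i3 <;> first
      | (exfalso; revert h; decide)
      | (show F 0 1 2 3 + F 0 2 1 3 + F 0 3 1 2 = F _ _ _ _ + F _ _ _ _ + F _ _ _ _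
         simp only [Fin.mk_zero, Fin.mk_one, Fin.reduceFinMk, Fin.isValue] <;> linarith)
  exact key i i1 i2 i3 h

section
variable {V : Type*} [DecidableEq V]

/-- the summand -/
def D2_F (x : ℤ) (G : (V × Fin 4 → V × Fin 4) → ℤ) (e : V × Fin 4 → V × Fin 4) (u : V)
    (a b c d : Fin 4) : ℤ :=
  x ^ (lp e (u, a) (u, b) + lp (join e (u, a) (u, b)) (u, c) (u, d)) *
    G (join (join e (u, a) (u, b)) (u, c) (u, d))

theorem D2_act_join {e : V × Fin 4 → V × Fin 4} (he : ∀ d, e (e d) = d) {x y z : V × Fin 4}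
    (hxy : x ≠ y) (hx : e x ≠ x) (hy : e y ≠ y) (hz : e z ≠ z) (hzx : z ≠ x) (hzy : z ≠ y) :
    join e x y z ≠ z := by
  unfold join
  rw [if_neg (by simp [hzx, hzy])]
  by_cases h1 : e z = x
  · rw [if_pos h1]
    intro h2
    have h3 : z = e x := by rw [← h1, he]
    rw [h3] at h2
    exact hxy ((inj_of he).1 h2).symm
  · rw [if_neg h1]
    by_cases h2 : e z = y
    · rw [if_pos h2]
      intro h4
      have h3 : z = e y := by rw [← h2, he]
      rw [h3] at h4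
      exact hxy ((inj_of he).1 h4)
    · rw [if_neg h2]
      exact hz

theorem D2_sum (x : ℤ) (G : (V × Fin 4 → V × Fin 4) → ℤ) (e : V × Fin 4 → V × Fin 4)
    (he : ∀ d, e (e d) = d) (u : V) (hu : ∀ k, e (u, k) ≠ (u, k))
    (i i1 i2 i3 : Fin 4) (h : [i, i1, i2, i3].Nodup) :
    ∑ t : Fin 3, x ^ ls e u t * G (sm e u t) =
      D2_F x G e u i i1 i2 i3 + D2_F x G e u i i2 i1 i3 + D2_F x G e u i i3 i1 i2 := by
  have hne : ∀ a b : Fin 4, a ≠ b → ((u, a) : V × Fin 4) ≠ (u, b) := by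
    intro a b hab h; exact hab (congrArg Prod.snd h)
  rw [← D2_perm (D2_F x G e u) ?_ ?_ ?_ i i1 i2 i3 h]
  · rw [Fin.sum_univ_three]
    rfl
  · intro a b c d hn
    simp only [List.nodup_cons, List.mem_cons, List.not_mem_nil, or_false, not_or, not_false_eq_true,
      List.nodup_nil, and_true] at hn
    obtain ⟨⟨n1, n2, n3⟩, ⟨n4, n5⟩, n6⟩ := hn
    unfold D2_F
    rw [join_symm e he (u, a) (u, b), lp_symm e he (u, a) (u, b)]
  · intro a b c d hn
    simp only [List.nodup_cons, List.mem_cons, List.not_mem_nil, or_false, not_or, not_false_eq_true,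
      List.nodup_nil, and_true] at hn
    obtain ⟨⟨n1, n2, n3⟩, ⟨n4, n5⟩, n6⟩ := hn
    unfold D2_F
    have hi := join_invol e he (hne a b n1) (hu a) (hu b)
    rw [join_symm _ hi (u, c) (u, d), lp_symm _ hi (u, c) (u, d)]
  · intro a b c d hn
    simp only [List.nodup_cons, List.mem_cons, List.not_mem_nil, or_false, not_or, not_false_eq_true,
      List.nodup_nil, and_true] at hn
    obtain ⟨⟨n1, n2, n3⟩, ⟨n4, n5⟩, n6⟩ := hn
    unfold D2_F
    rw [join_comm e he (hne a b n1) (hne a c n2) (hne a d n3) (hne b c n4) (hne b d n5) (hne c d n6)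
      (hu a) (hu b) (hu c) (hu d),
      lp_comm e he (hne a b n1) (hne a c n2) (hne a d n3) (hne b c n4) (hne b d n5) (hne c d n6)
      (hu a) (hu b) (hu c) (hu d)]

theorem D2_core {e : V × Fin 4 → V × Fin 4} (he : ∀ d, e (e d) = d)
    {p q y z y' y'' z' z'' : V × Fin 4} (hpq : e p = q)
    (n1 : p ≠ q) (n2 : p ≠ y) (n3 : p ≠ z) (n4 : q ≠ y) (n5 : q ≠ z) (n6 : y ≠ z)
    (m1 : y' ≠ y'') (m2 : y' ≠ q) (m3 : y' ≠ z) (m4 : y'' ≠ q) (m5 : y'' ≠ z)
    (k1 : y' ≠ p) (k2 : y' ≠ y) (k3 : y'' ≠ p) (k4 : y'' ≠ y)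
    (hy : e y ≠ y) (hz : e z ≠ z) (hy' : e y' ≠ y') (hy'' : e y'' ≠ y'') :
    join (join (join (join e p y) y' y'') q z) z' z'' = join3 (join e p q) y z y' y'' z' z'' ∧
    lp e p y + lp (join e p y) y' y'' + (lp (join (join e p y) y' y'') q z +
      lp (join (join (join e p y) y' y'') q z) z' z'') = lp3 (join e p q) y z y' y'' z' z'' := by
  have hp : e p ≠ p := by rw [hpq]; exact n1.symm
  have hq : e q ≠ q := by rw [← hpq, he]; rw [hpq]; exact n1
  obtain ⟨c1, c2, c3⟩ := join_chain e he hpq n1 n2 n3 n4 n5 n6 hy hz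
  have hi := join_invol e he n2 hp hy
  have aq : join e p y q ≠ q := D2_act_join he n2 hp hy hq n1.symm n4
  have az : join e p y z ≠ z := D2_act_join he n2 hp hy hz n3.symm n6.symm
  have ay' : join e p y y' ≠ y' := D2_act_join he n2 hp hy hy' k1 k2
  have ay'' : join e p y y'' ≠ y'' := D2_act_join he n2 hp hy hy'' k3 k4
  have j1 := join_comm (join e p y) hi m1 m2 m3 m4 m5 n5 ay' ay'' aq az
  have j2 := lp_comm (join e p y) hi m1 m2 m3 m4 m5 n5 ay' ay'' aq az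
  constructor
  · rw [j1, c1]; rfl
  · unfold lp3
    rw [j1, ← c1, ← c3]
    omega

end

theorem D2 : D2_stmt := by
  intro V _ x L e u w i i1 i2 i3 j j1 j2 j3 hL hI hJ hA hpq
  obtain ⟨he, hA'⟩ := hA
  have huw : u ≠ w := by
    simp only [List.nodup_cons, List.mem_cons, not_or] at hL
    exact hL.1.1
  have act : ∀ v ∈ (u :: w :: L), ∀ k, e (v, k) ≠ (v, k) := by
    intro v hv k
    rw [hA']
    unfold dts
    rw [mem_product]
    exact ⟨List.mem_toFinset.mpr hv, mem_univ _⟩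
  have hu : ∀ k, e (u, k) ≠ (u, k) := act u (by simp)
  have hw : ∀ k, e (w, k) ≠ (w, k) := act w (by simp)
  have neu : ∀ a b : Fin 4, a ≠ b → ((u, a) : V × Fin 4) ≠ (u, b) := by
    intro a b hab h; exact hab (congrArg Prod.snd h)
  have new : ∀ a b : Fin 4, a ≠ b → ((w, a) : V × Fin 4) ≠ (w, b) := by
    intro a b hab h; exact hab (congrArg Prod.snd h)
  have neuw : ∀ a b : Fin 4, ((u, a) : V × Fin 4) ≠ (w, b) := by
    intro a b h; exact huw (congrArg Prod.fst h)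
  have newu : ∀ a b : Fin 4, ((w, a) : V × Fin 4) ≠ (u, b) := fun a b h => neuw b a h.symm
  -- one value of the first partner
  have row : ∀ a b c : Fin 4, [i, a, b, c].Nodup →
      D2_F x (Z x (w :: L)) e u i a b c =
        T3 x L (join e (u, i) (w, j)) (u, a) (w, j1) (u, b) (u, c) (w, j2) (w, j3) +
        T3 x L (join e (u, i) (w, j)) (u, a) (w, j2) (u, b) (u, c) (w, j1) (w, j3) +
        T3 x L (join e (u, i) (w, j)) (u, a) (w, j3) (u, b) (u, c) (w, j1) (w, j2) := by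
    intro a b c hn
    simp only [List.nodup_cons, List.mem_cons, List.not_mem_nil, or_false, not_or, not_false_eq_true,
      List.nodup_nil, and_true] at hn
    obtain ⟨⟨n1, n2, n3⟩, ⟨n4, n5⟩, n6⟩ := hn
    have hi1 := join_invol e he (neu i a n1) (hu i) (hu a)
    have ab : join e (u, i) (u, a) (u, b) ≠ (u, b) :=
      D2_act_join he (neu i a n1) (hu i) (hu a) (hu b) (neu b i (Ne.symm n2)) (neu b a (Ne.symm n4))
    have ac : join e (u, i) (u, a) (u, c) ≠ (u, c) :=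
      D2_act_join he (neu i a n1) (hu i) (hu a) (hu c) (neu c i (Ne.symm n3)) (neu c a (Ne.symm n5))
    have aw : ∀ k, join e (u, i) (u, a) (w, k) ≠ (w, k) := fun k =>
      D2_act_join he (neu i a n1) (hu i) (hu a) (hw k) (newu k i) (newu k a)
    have hi2 := join_invol _ hi1 (neu b c n6) ab ac
    have aw2 : ∀ k, join (join e (u, i) (u, a)) (u, b) (u, c) (w, k) ≠ (w, k) := fun k =>
      D2_act_join hi1 (neu b c n6) ab ac (aw k) (newu k b) (newu k c)
    have term : ∀ s s' s'' : Fin 4, [j, s, s', s''].Nodup →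
        x ^ (lp e (u, i) (u, a) + lp (join e (u, i) (u, a)) (u, b) (u, c)) *
          D2_F x (Z x L) (join (join e (u, i) (u, a)) (u, b) (u, c)) w j s s' s'' =
        T3 x L (join e (u, i) (w, j)) (u, a) (w, s) (u, b) (u, c) (w, s') (w, s'') := by
      intro s s' s'' hs
      simp only [List.nodup_cons, List.mem_cons, List.not_mem_nil, or_false, not_or,
        not_false_eq_true, List.nodup_nil, and_true] at hs
      obtain ⟨⟨l1, l2, l3⟩, ⟨l4, l5⟩, l6⟩ := hs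
      obtain ⟨c1, c2⟩ := D2_core (z' := (w, s')) (z'' := (w, s'')) he hpq (neuw i j) (neu i a n1) (neuw i s) (newu j a)
        (new j s l1) (neuw a s) (neu b c n6) (neuw b j) (neuw b s) (neuw c j) (neuw c s)
        (neu b i (Ne.symm n2)) (neu b a (Ne.symm n4)) (neu c i (Ne.symm n3)) (neu c a (Ne.symm n5))
        (hu a) (hw s) (hu b) (hu c)
      unfold D2_F T3
      rw [← mul_assoc, ← pow_add, c1, c2]
    show x ^ _ * Z x (w :: L) _ = _
    have hZ : Z x (w :: L) (join (join e (u, i) (u, a)) (u, b) (u, c)) =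
        ∑ t : Fin 3, x ^ ls (join (join e (u, i) (u, a)) (u, b) (u, c)) w t *
          Z x L (sm (join (join e (u, i) (u, a)) (u, b) (u, c)) w t) := rfl
    rw [hZ, D2_sum x (Z x L) _ hi2 w aw2 j j1 j2 j3 hJ, mul_add, mul_add]
    have hJ2 : [j, j2, j1, j3].Nodup := by
      simp only [List.nodup_cons, List.mem_cons, List.not_mem_nil, or_false, not_or,
        not_false_eq_true, List.nodup_nil, and_true] at hJ ⊢
      obtain ⟨⟨l1, l2, l3⟩, ⟨l4, l5⟩, l6⟩ := hJ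
      exact ⟨⟨l2, l1, l3⟩, ⟨Ne.symm l4, l6⟩, l5⟩
    have hJ3 : [j, j3, j1, j2].Nodup := by
      simp only [List.nodup_cons, List.mem_cons, List.not_mem_nil, or_false, not_or,
        not_false_eq_true, List.nodup_nil, and_true] at hJ ⊢
      obtain ⟨⟨l1, l2, l3⟩, ⟨l4, l5⟩, l6⟩ := hJ
      exact ⟨⟨l3, l1, l2⟩, ⟨Ne.symm l5, Ne.symm l6⟩, l4⟩
    rw [term j1 j2 j3 hJ, term j2 j1 j3 hJ2, term j3 j1 j2 hJ3]
  have hZ : Z x (u :: w :: L) e = ∑ t : Fin 3, x ^ ls e u t * Z x (w :: L) (sm e u t) := rfl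
  rw [hZ, D2_sum x (Z x (w :: L)) e he u hu i i1 i2 i3 hI]
  have hI2 : [i, i2, i1, i3].Nodup := by
    simp only [List.nodup_cons, List.mem_cons, List.not_mem_nil, or_false, not_or,
      not_false_eq_true, List.nodup_nil, and_true] at hI ⊢
    obtain ⟨⟨l1, l2, l3⟩, ⟨l4, l5⟩, l6⟩ := hI
    exact ⟨⟨l2, l1, l3⟩, ⟨Ne.symm l4, l6⟩, l5⟩
  have hI3 : [i, i3, i1, i2].Nodup := by
    simp only [List.nodup_cons, List.mem_cons, List.not_mem_nil, or_false, not_or,
      not_false_eq_true, List.nodup_nil, and_true] at hI ⊢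
    obtain ⟨⟨l1, l2, l3⟩, ⟨l4, l5⟩, l6⟩ := hI
    exact ⟨⟨l3, l1, l2⟩, ⟨Ne.symm l5, Ne.symm l6⟩, l4⟩
  rw [row i1 i2 i3 hI, row i2 i1 i3 hI2, row i3 i1 i2 hI3]

end CT
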